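import Mathlib

/-!
Composition on the left with a `C^n` map is a `C^n` map between spaces of continuous functions.
-/

open Set Filter Topology Asymptotics
open scoped ContDiff

namespace Pool.Agent.Lib.Flow

universe u

variable {X : Type} [TopologicalSpace X] [CompactSpace X]
variable {E : Type u} [NormedAddCommGroup E] [NormedSpace ℝ E]

/-- pointwise application of a family of operators -/
noncomputable def app (X : Type) [TopologicalSpace X] [CompactSpace X] (E F : Type u)
    [NormedAddCommGroup E] [NormedSpace ℝ E] [NormedAddCommGroup F] [NormedSpace ℝ F] :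
    C(X, E →L[ℝ] F) →L[ℝ] C(X, E) →L[ℝ] C(X, F) :=
  LinearMap.mkContinuous₂
    (LinearMap.mk₂ ℝ (fun (A : C(X, E →L[ℝ] F)) (h : C(X, E)) =>
        (⟨fun s => A s (h s), A.continuous.clm_apply h.continuous⟩ : C(X, F)))
      (fun A B h => by ext s; simp) (fun c A h => by ext s; simp)
      (fun A h k => by ext s; simp) (fun c A h => by ext s; simp)) 1
    (fun A h => by
      rw [one_mul, ContinuousMap.norm_le _ (by positivity)]
      intro s
      exact ((A s).le_opNorm _).trans
        (mul_le_mul (A.norm_coe_le_norm s) (h.norm_coe_le_norm s) (norm_nonneg _) (norm_nonneg A)))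

@[simp] theorem app_apply {F : Type u} [NormedAddCommGroup F] [NormedSpace ℝ F]
    (A : C(X, E →L[ℝ] F)) (h : C(X, E)) (s : X) : app X E F A h s = A s (h s) := rfl

theorem hasFDerivAt_postcomp {F : Type u} [NormedAddCommGroup F] [NormedSpace ℝ F]
    (f : C(E, F)) (f' : C(E, E →L[ℝ] F)) (hf : ∀ x, HasFDerivAt f (f' x) x) (γ : C(X, E)) :
    HasFDerivAt (fun η : C(X, E) => f.comp η) (app X E F (f'.comp γ)) γ := by
  rw [hasFDerivAt_iff_isLittleO_nhds_zero, isLittleO_iff]
  intro ε hε
  have hc : ContinuousAt (fun η : C(X, E) => f'.comp η) γ :=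
    (f'.continuous_postcomp (X := X)).continuousAt
  obtain ⟨δ, hδ, hδε⟩ := (Metric.continuousAt_iff (α := C(X, E)) (β := C(X, E →L[ℝ] F))).mp hc ε hε
  filter_upwards [Metric.ball_mem_nhds (0 : C(X, E)) hδ] with h hh
  rw [mem_ball_zero_iff] at hh
  rw [ContinuousMap.norm_le _ (by positivity)]
  intro s
  have key : ∀ τ ∈ Icc (0 : ℝ) 1, ‖f' (γ s + τ • h s) - f' (γ s)‖ ≤ ε := by
    intro τ hτ
    have h1 : dist (γ + τ • h) γ < δ := by
      rw [dist_eq_norm, add_sub_cancel_left, norm_smul, Real.norm_eq_abs, abs_of_nonneg hτ.1]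
      nlinarith [hτ.2, norm_nonneg h]
    have h2 := (ContinuousMap.dist_apply_le_dist (f := f'.comp (γ + τ • h)) (g := f'.comp γ)
      s).trans (hδε h1).le
    rw [dist_eq_norm] at h2
    exact h2
  have hd : ∀ τ ∈ Icc (0 : ℝ) 1, HasDerivWithinAt
      (fun τ : ℝ => f (γ s + τ • h s) - τ • f' (γ s) (h s))
      ((f' (γ s + τ • h s) - f' (γ s)) (h s)) (Icc 0 1) τ := by
    intro τ _
    have h1 : HasDerivAt (fun τ : ℝ => γ s + τ • h s) (h s) τ := by
      simpa using ((hasDerivAt_id τ).smul_const (h s)).const_add (γ s)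
    have h2 := (hf (γ s + τ • h s)).comp_hasDerivAt τ h1
    have h3 : HasDerivAt (fun τ : ℝ => τ • f' (γ s) (h s)) (f' (γ s) (h s)) τ := by
      simpa using (hasDerivAt_id τ).smul_const (f' (γ s) (h s))
    exact (h2.sub h3).hasDerivWithinAt
  have hb := norm_image_sub_le_of_norm_deriv_le_segment_01' (C := ε * ‖h‖) hd (fun τ hτ =>
    (ContinuousLinearMap.le_opNorm _ _).trans
      (mul_le_mul (key τ ⟨hτ.1, hτ.2.le⟩) (h.norm_coe_le_norm s) (norm_nonneg _) hε.le))
  simp only [one_smul, zero_smul, add_zero, sub_zero] at hb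
  have e : f (γ s + h s) - f' (γ s) (h s) - f (γ s) = f (γ s + h s) - f (γ s) - f' (γ s) (h s) := by
    abel
  rw [e] at hb
  exact hb

theorem contDiff_postcomp_nat (n : ℕ) : ∀ {F : Type u} [NormedAddCommGroup F] [NormedSpace ℝ F]
    (f : C(E, F)), ContDiff ℝ n f → ContDiff ℝ n fun η : C(X, E) => f.comp η := by
  induction n with
  | zero =>
    intro F _ _ f _
    exact contDiff_zero.mpr f.continuous_postcomp
  | succ n ih =>
    intro F _ _ f hf
    obtain ⟨f', hf', hd⟩ := contDiff_succ_iff_hasFDerivAt.mp hf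
    let g : C(E, E →L[ℝ] F) := ⟨f', hf'.continuous⟩
    refine contDiff_succ_iff_hasFDerivAt.mpr ⟨fun γ => app X E F (g.comp γ), ?_, ?_⟩
    · exact (app X E F).contDiff.comp (ih g hf')
    · exact hasFDerivAt_postcomp f g hd

theorem contDiff_postcomp {n : ℕ∞} {F : Type u} [NormedAddCommGroup F] [NormedSpace ℝ F]
    (f : C(E, F)) (hf : ContDiff ℝ n f) : ContDiff ℝ n fun η : C(X, E) => f.comp η := by
  rw [contDiff_iff_forall_nat_le] at hf ⊢
  exact fun m hm => contDiff_postcomp_nat m f (hf m hm)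

end Pool.Agent.Lib.Flow
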