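import Mathlib
import Pool.Agent.Lib.Flow.Nemytskii

/-!
The global flow of a Lipschitz `C^n` vector field on a Banach space is jointly `C^n`.
-/

open Set Filter Topology
open scoped ContDiff NNReal

namespace Pool.Agent.Lib.Flow

universe u

variable {E : Type u} [NormedAddCommGroup E] [NormedSpace ℝ E] [CompleteSpace E]

/-- the unit interval -/
abbrev J : Type := Icc (0 : ℝ) 1

/-- extension of a path to the line -/
noncomputable def ext (γ : C(J, E)) : ℝ → E := IccExtend zero_le_one γ

omit [NormedSpace ℝ E] [CompleteSpace E] in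
theorem continuous_ext (γ : C(J, E)) : Continuous (ext γ) := γ.continuous.Icc_extend'

omit [NormedSpace ℝ E] [CompleteSpace E] in
theorem ext_of_mem (γ : C(J, E)) {r : ℝ} (hr : r ∈ Icc (0 : ℝ) 1) : ext γ r = γ ⟨r, hr⟩ :=
  IccExtend_of_mem _ _ hr

omit [CompleteSpace E] in
theorem norm_int_le (γ : C(J, E)) (s : J) (b : ℝ → ℝ) (hb : Continuous b)
    (h : ∀ r : J, ‖γ r‖ ≤ b r) : ‖∫ r in (0 : ℝ)..s, ext γ r‖ ≤ ∫ r in (0 : ℝ)..s, b r := by
  refine intervalIntegral.norm_integral_le_of_norm_le s.2.1 ?_ (hb.intervalIntegrable _ _)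
  refine Eventually.of_forall fun r hr => ?_
  have hr' : r ∈ Icc (0 : ℝ) 1 := ⟨hr.1.le, hr.2.trans s.2.2⟩
  rw [ext_of_mem γ hr']
  exact h ⟨r, hr'⟩

/-- the primitive of a path -/
noncomputable def prim : C(J, E) →L[ℝ] C(J, E) :=
  LinearMap.mkContinuous
    { toFun := fun γ => ⟨fun s => ∫ r in (0 : ℝ)..s, ext γ r,
        (intervalIntegral.continuous_primitive
          (fun a b => (continuous_ext γ).intervalIntegrable a b) 0).comp continuous_subtype_val⟩
      map_add' := fun γ η => by
        ext s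
        exact intervalIntegral.integral_add ((continuous_ext γ).intervalIntegrable _ _)
          ((continuous_ext η).intervalIntegrable _ _)
      map_smul' := fun c γ => by
        ext s
        exact intervalIntegral.integral_smul c (ext γ) } 1
    (fun γ => by
      rw [one_mul, ContinuousMap.norm_le _ (norm_nonneg γ)]
      intro s
      refine (norm_int_le γ s (fun _ => ‖γ‖) continuous_const γ.norm_coe_le_norm).trans ?_
      rw [intervalIntegral.integral_const, sub_zero, smul_eq_mul]
      nlinarith [s.2.2, norm_nonneg γ])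

omit [CompleteSpace E] in
theorem prim_apply (γ : C(J, E)) (s : J) : prim γ s = ∫ r in (0 : ℝ)..s, ext γ r := rfl

/-- Volterra equations with a pointwise Lipschitz operator are uniquely solvable. -/
theorem volterra (A : C(J, E) → C(J, E)) (K : ℝ) (hK : 0 ≤ K)
    (hA : ∀ γ η s, ‖A γ s - A η s‖ ≤ K * ‖γ s - η s‖) (t : ℝ) (y : C(J, E)) :
    ∃! γ, γ - t • prim (A γ) = y := by
  set l : ℝ := 2 * (|t| * K) + 1 with hl
  have htK : 0 ≤ |t| * K := mul_nonneg (abs_nonneg t) hK
  have hl0 : 0 < l := by linarith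
  let M : ℝ → C(J, E) → C(J, E) := fun c η =>
    ⟨fun s => Real.exp (c * s) • η s, by fun_prop⟩
  have hM : ∀ c η, M c (M (-c) η) = η := fun c η => by
    ext s
    simp [M, smul_smul, ← Real.exp_add]
  have hM' : ∀ c η, M (-c) (M c η) = η := fun c η => by
    simpa using hM (-c) η
  let T : C(J, E) → C(J, E) := fun η => M (-l) (y + t • prim (A (M l η)))
  have hT : ContractingWith (1 / 2) T := by
    refine ⟨by norm_num, LipschitzWith.of_dist_le_mul fun η ζ => ?_⟩
    rw [ContinuousMap.dist_le (by positivity)]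
    intro s
    have e : T η s - T ζ s = (Real.exp (-l * s) * t) • prim (A (M l η) - A (M l ζ)) s := by
      simp only [T, M, ContinuousMap.coe_mk, ContinuousMap.add_apply, ContinuousMap.smul_apply,
        map_sub, ContinuousMap.sub_apply]
      module
    have hb := norm_int_le (A (M l η) - A (M l ζ)) s
      (fun r => K * dist η ζ * Real.exp (l * r)) (by fun_prop) (fun r => by
        refine (hA _ _ r).trans ?_
        have e2 : M l η r - M l ζ r = Real.exp (l * r) • (η r - ζ r) := (smul_sub _ _ _).symm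
        rw [e2, norm_smul, Real.norm_eq_abs, abs_of_pos (Real.exp_pos _), ← dist_eq_norm]
        have := mul_le_mul_of_nonneg_left (ContinuousMap.dist_apply_le_dist (f := η) (g := ζ) r)
          (mul_nonneg hK (Real.exp_pos (l * r)).le)
        linarith)
    have hi : ∫ r in (0 : ℝ)..s, Real.exp (l * r) = (Real.exp (l * s) - 1) / l := by
      have hd : ∀ r ∈ uIcc (0 : ℝ) s, HasDerivAt (fun r => Real.exp (l * r) / l)
          (Real.exp (l * r)) r := fun r _ => by
        have := (((hasDerivAt_id r).const_mul l).exp).div_const l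
        simpa [mul_div_assoc, div_self hl0.ne'] using this
      rw [intervalIntegral.integral_eq_sub_of_hasDerivAt hd
        (Continuous.intervalIntegrable (by fun_prop) _ _)]
      simp [sub_div]
    rw [intervalIntegral.integral_const_mul, hi, ← prim_apply] at hb
    rw [dist_eq_norm, e, norm_smul, Real.norm_eq_abs, abs_mul, abs_of_pos (Real.exp_pos _)]
    have h1 : Real.exp (-l * s) * Real.exp (l * s) = 1 := by
      rw [← Real.exp_add]
      simp
    have h2 := Real.exp_pos (-l * s)
    have hd0 : 0 ≤ dist η ζ := dist_nonneg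
    calc Real.exp (-l * s) * |t| * ‖prim (A (M l η) - A (M l ζ)) s‖
        ≤ Real.exp (-l * s) * |t| * (K * dist η ζ * ((Real.exp (l * s) - 1) / l)) :=
          mul_le_mul_of_nonneg_left hb (by positivity)
      _ = (|t| * K / l) * dist η ζ *
          (Real.exp (-l * s) * Real.exp (l * s) - Real.exp (-l * s)) := by ring
      _ ≤ (|t| * K / l) * dist η ζ * 1 :=
          mul_le_mul_of_nonneg_left (by linarith) (by positivity)
      _ ≤ ((1 / 2 : ℝ≥0) : ℝ) * dist η ζ := by
          rw [mul_one]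
          refine mul_le_mul_of_nonneg_right ?_ hd0
          rw [div_le_iff₀ hl0]
          push_cast
          linarith
  have hfix : ∀ γ, γ - t • prim (A γ) = y ↔ Function.IsFixedPt T (M (-l) γ) := fun γ => by
    simp only [Function.IsFixedPt, T, hM]
    constructor
    · intro h
      rw [← h, sub_add_cancel]
    · intro h
      have := congrArg (M l) h
      rw [hM, hM] at this
      rw [sub_eq_iff_eq_add, this]
  refine ⟨M l (hT.fixedPoint T), ?_, fun γ hγ => ?_⟩
  · show M l (hT.fixedPoint T) - _ = y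
    rw [hfix, hM']
    exact hT.fixedPoint_isFixedPt
  · rw [← hT.fixedPoint_unique ((hfix γ).mp hγ), hM]

/-- The global flow of a Lipschitz `C^n` vector field exists and is jointly `C^n`. -/
theorem exists_flow {n : ℕ∞} (hn : n ≠ 0) (v : E → E) (hv : ContDiff ℝ n v) (K : ℝ≥0)
    (hK : LipschitzWith K v) : ∃ P : ℝ × E → E, ContDiff ℝ n P ∧ (∀ x, P (0, x) = x) ∧
      (∀ t x, HasDerivAt (fun s => P (s, x)) (v (P (t, x))) t) ∧
      ∀ s t x, P (s + t, x) = P (s, P (t, x)) := by
  have hn' : (n : ℕ∞ω) ≠ 0 := by exact_mod_cast hn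
  let f : C(E, E) := ⟨v, hv.continuous⟩
  let f' : C(E, E →L[ℝ] E) := ⟨fderiv ℝ v, hv.continuous_fderiv hn'⟩
  have hf : ∀ x, HasFDerivAt f (f' x) x := fun x => (hv.differentiable hn' x).hasFDerivAt
  have hex : ∀ p : ℝ × E, ∃! γ : C(J, E),
      γ - p.1 • prim (f.comp γ) = ContinuousLinearMap.const ℝ J p.2 := fun p =>
    volterra (fun γ => f.comp γ) K K.2 (fun γ η s => by
      have := hK.dist_le_mul (γ s) (η s)
      rw [dist_eq_norm, dist_eq_norm] at this
      exact this) p.1 _
  choose Γ hΓ hΓu using hex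
  have hsm : ContDiff ℝ n Γ := by
    rw [contDiff_iff_contDiffAt]
    intro p
    let G : (ℝ × E) × C(J, E) → C(J, E) := fun w =>
      w.2 - w.1.1 • prim (f.comp w.2) - ContinuousLinearMap.const ℝ J w.1.2
    have hN : ContDiff ℝ n fun η : C(J, E) => f.comp η := contDiff_postcomp f hv
    have hG1 : ContDiff ℝ n fun w : (ℝ × E) × C(J, E) => f.comp w.2 := hN.comp contDiff_snd
    have hG2 : ContDiff ℝ n fun w : (ℝ × E) × C(J, E) => prim (f.comp w.2) :=
      (prim (E := E)).contDiff.comp hG1
    have hG3 : ContDiff ℝ n fun w : (ℝ × E) × C(J, E) => w.1.1 := contDiff_fst.comp contDiff_fst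
    have hG4 : ContDiff ℝ n fun w : (ℝ × E) × C(J, E) => w.1.2 := contDiff_snd.comp contDiff_fst
    have hG5 : ContDiff ℝ n fun w : (ℝ × E) × C(J, E) => ContinuousLinearMap.const ℝ J w.1.2 :=
      (ContinuousLinearMap.const ℝ J : E →L[ℝ] C(J, E)).contDiff.comp hG4
    have hG : ContDiff ℝ n G := (contDiff_snd.sub (hG3.smul hG2)).sub hG5
    let D : C(J, E) →L[ℝ] C(J, E) :=
      ContinuousLinearMap.id ℝ _ - p.1 • (prim ∘L app J E E (f'.comp (Γ p)))
    have hD : fderiv ℝ G (p, Γ p) ∘L ContinuousLinearMap.inr ℝ (ℝ × E) C(J, E) = D := by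
      have h1 : HasFDerivAt (fun η => G (p, η))
          (fderiv ℝ G (p, Γ p) ∘L ContinuousLinearMap.inr ℝ (ℝ × E) C(J, E)) (Γ p) :=
        (hG.differentiable hn' _).hasFDerivAt.comp (Γ p) (hasFDerivAt_prodMk_right p (Γ p))
      have h3 : HasFDerivAt (fun η : C(J, E) => prim (f.comp η))
          (prim ∘L app J E E (f'.comp (Γ p))) (Γ p) :=
        (prim (E := E)).hasFDerivAt.comp (Γ p) (hasFDerivAt_postcomp f f' hf (Γ p))
      have h4 : HasFDerivAt (fun η : C(J, E) => p.1 • prim (f.comp η))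
          (p.1 • (prim ∘L app J E E (f'.comp (Γ p)))) (Γ p) := h3.const_smul p.1
      have h5 : HasFDerivAt (fun η : C(J, E) => η - p.1 • prim (f.comp η)) D (Γ p) :=
        (hasFDerivAt_id (Γ p)).sub h4
      have h2 : HasFDerivAt (fun η => G (p, η)) D (Γ p) :=
        h5.sub_const (ContinuousLinearMap.const ℝ J p.2)
      exact h1.unique h2
    have hbij : Function.Bijective D := by
      rw [Function.bijective_iff_existsUnique]
      intro y
      refine volterra (app J E E (f'.comp (Γ p))) K K.2 (fun γ η s => ?_) p.1 y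
      rw [app_apply, app_apply, ← map_sub]
      exact (ContinuousLinearMap.le_opNorm _ _).trans
        (mul_le_mul_of_nonneg_right (norm_fderiv_le_of_lipschitz ℝ hK) (norm_nonneg _))
    have hinv : (fderiv ℝ G (p, Γ p) ∘L ContinuousLinearMap.inr ℝ (ℝ × E) C(J, E)).IsInvertible := by
      rw [hD]
      exact ⟨ContinuousLinearEquiv.ofBijective D (LinearMap.ker_eq_bot.mpr hbij.1)
        (LinearMap.range_eq_top.mpr hbij.2), rfl⟩
    have hGa : ContDiffAt ℝ n G (p, Γ p) := hG.contDiffAt
    refine (hGa.contDiffAt_implicitFunction hn' hinv).congr_of_eventuallyEq ?_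
    filter_upwards [hGa.eventually_apply_implicitFunction hn' hinv] with q hq
    have h0 : G (p, Γ p) = 0 := sub_eq_zero.mpr (hΓ p)
    rw [h0] at hq
    exact (hΓu q _ (sub_eq_zero.mp hq)).symm
  let P : ℝ × E → E := fun p => Γ p ⟨1, zero_le_one, le_rfl⟩
  have hP : ContDiff ℝ n P :=
    (ContinuousMap.evalCLM ℝ (⟨1, zero_le_one, le_rfl⟩ : J) : C(J, E) →L[ℝ] E).contDiff.comp hsm
  have hint : ∀ (p : ℝ × E) (r : ℝ), r ∈ Icc (0 : ℝ) 1 →
      ext (Γ p) r = p.2 + p.1 • ∫ s in (0 : ℝ)..r, v (ext (Γ p) s) := fun p r hr => by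
    have h1 := congrArg (fun γ : C(J, E) => γ ⟨r, hr⟩) (hΓ p)
    rw [ext_of_mem _ hr, ← sub_eq_iff_eq_add]
    exact h1
  have hscale : ∀ (t : ℝ) (x : E) (r : ℝ), r ∈ Icc (0 : ℝ) 1 →
      P (r * t, x) = ext (Γ (t, x)) r := fun t x r hr => by
    let η : C(J, E) := ⟨fun s => ext (Γ (t, x)) (r * s),
      (continuous_ext _).comp (by fun_prop)⟩
    have hη : η = Γ (r * t, x) := by
      refine hΓu (r * t, x) η ?_
      ext s
      have hrs : r * s ∈ Icc (0 : ℝ) 1 :=
        ⟨mul_nonneg hr.1 s.2.1, mul_le_one₀ hr.2 s.2.1 s.2.2⟩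
      have h1 := hint (t, x) (r * s) hrs
      have h2 : prim (f.comp η) s = ∫ q in (0 : ℝ)..s, v (ext (Γ (t, x)) (r * q)) := by
        rw [prim_apply]
        refine intervalIntegral.integral_congr fun q hq => ?_
        rw [uIcc_of_le s.2.1] at hq
        rw [ext_of_mem _ ⟨hq.1, hq.2.trans s.2.2⟩]
        rfl
      have h3 := intervalIntegral.smul_integral_comp_mul_left (a := 0) (b := s)
        (fun q => v (ext (Γ (t, x)) q)) r
      rw [mul_zero] at h3
      show ext (Γ (t, x)) (r * s) - (r * t) • prim (f.comp η) s = x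
      rw [h2, h1, ← h3, smul_smul, mul_comm t r]
      simp
    show Γ (r * t, x) _ = _
    rw [← hη]
    show ext (Γ (t, x)) (r * 1) = _
    rw [mul_one]
  have hP0 : ∀ x, P (0, x) = x := fun x => by
    have h1 := hscale 0 x 0 ⟨le_rfl, zero_le_one⟩
    rw [hint (0, x) 0 ⟨le_rfl, zero_le_one⟩] at h1
    simpa using h1
  have hder1 : ∀ t x, t ≠ 0 → HasDerivAt (fun s => P (s, x)) (v (P (t, x))) t := fun t x ht => by
    have hT : 2 * t ≠ 0 := mul_ne_zero two_ne_zero ht
    have hhalf : t / (2 * t) = 1 / 2 := by field_simp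
    have hc : Continuous fun s => v (ext (Γ (2 * t, x)) s) :=
      hv.continuous.comp (continuous_ext _)
    have h1 : HasDerivAt (fun r => x + (2 * t) • ∫ s in (0 : ℝ)..r, v (ext (Γ (2 * t, x)) s))
        ((2 * t) • v (ext (Γ (2 * t, x)) (t / (2 * t)))) (t / (2 * t)) :=
      ((hc.integral_hasStrictDerivAt 0 _).hasDerivAt.const_smul (2 * t)).const_add x
    have h2 : HasDerivAt (fun s : ℝ => s / (2 * t)) (1 / (2 * t)) t :=
      (hasDerivAt_id t).div_const _
    have h3 := h1.scomp t h2
    have hmem : ∀ᶠ s in 𝓝 t, s / (2 * t) ∈ Icc (0 : ℝ) 1 := by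
      refine h2.continuousAt.preimage_mem_nhds ?_
      rw [hhalf]
      exact Icc_mem_nhds (by norm_num) (by norm_num)
    have h4 : ∀ s, s / (2 * t) ∈ Icc (0 : ℝ) 1 → P (s, x) = ext (Γ (2 * t, x)) (s / (2 * t)) :=
      fun s hs => by rw [← hscale _ _ _ hs, div_mul_cancel₀ _ hT]
    rw [smul_smul, one_div_mul_cancel hT, one_smul, ← h4 t hmem.self_of_nhds] at h3
    refine h3.congr_of_eventuallyEq ?_
    filter_upwards [hmem] with s hs
    rw [h4 s hs, hint _ _ hs]
    rfl
  have hder : ∀ t x, HasDerivAt (fun s => P (s, x)) (v (P (t, x))) t := fun t x => by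
    have hg : ContDiff ℝ n fun s : ℝ => P (s, x) := hP.comp (contDiff_id.prodMk contDiff_const)
    have e : deriv (fun s : ℝ => P (s, x)) = fun s => v (P (s, x)) :=
      Continuous.ext_on (dense_compl_singleton (0 : ℝ))
        (hg.continuous_deriv (by exact_mod_cast Order.one_le_iff_ne_zero.mpr hn))
        (hv.continuous.comp hg.continuous) fun s hs => (hder1 s x hs).deriv
    have := (hg.differentiable hn' t).hasDerivAt
    rwa [e] at this
  refine ⟨P, hP, hP0, hder, fun s t x => ?_⟩
  have := ODE_solution_unique_univ (v := fun _ => v) (s := fun _ => univ) (t₀ := 0)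
    (f := fun s => P (s + t, x)) (g := fun s => P (s, P (t, x)))
    (fun _ => hK.lipschitzOnWith) (fun s => ⟨(hder (s + t) x).comp_add_const s t, trivial⟩)
    (fun s => ⟨hder s _, trivial⟩) (by simp [hP0])
  exact congrFun this s

end Pool.Agent.Lib.Flow
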