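import Mathlib
import Pool.Agent.Lib.Flow.Smooth

/-!
Tools for flows: compact support, stationary points, the variational equation, invariance of
retracts.
-/

open Set Filter Topology
open scoped ContDiff NNReal

namespace Pool.Agent.Lib.Flow

universe u

section

variable {E : Type u} [NormedAddCommGroup E] [NormedSpace ℝ E] [CompleteSpace E]

theorem exists_flow_of_hasCompactSupport {n : ℕ∞} (hn : n ≠ 0) (v : E → E) (hv : ContDiff ℝ n v)
    (hc : HasCompactSupport v) : ∃ P : ℝ × E → E, ContDiff ℝ n P ∧ (∀ x, P (0, x) = x) ∧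
      (∀ t x, HasDerivAt (fun s => P (s, x)) (v (P (t, x))) t) ∧
      ∀ s t x, P (s + t, x) = P (s, P (t, x)) := by
  obtain ⟨K, hK⟩ := ContDiff.lipschitzWith_of_hasCompactSupport hc hv (by exact_mod_cast hn)
  exact exists_flow hn v hv K hK

theorem exists_smooth_flow (v : E → E) (hv : ContDiff ℝ ∞ v) (K : ℝ≥0) (hK : LipschitzWith K v) :
    ∃ P : ℝ × E → E, ContDiff ℝ ∞ P ∧ (∀ x, P (0, x) = x) ∧
      (∀ t x, HasDerivAt (fun s => P (s, x)) (v (P (t, x))) t) ∧
      ∀ s t x, P (s + t, x) = P (s, P (t, x)) :=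
  exists_flow (n := ⊤) (by simp) v hv K hK

end

variable {E : Type*} [NormedAddCommGroup E] [NormedSpace ℝ E]

/-- two global integral curves of a `C^1` field which agree once agree always -/
theorem curve_unique {v : E → E} {c d : ℝ → E} (hv : ∀ t, ContDiffAt ℝ 1 v (c t))
    (hc : ∀ t, HasDerivAt c (v (c t)) t) (hd : ∀ t, HasDerivAt d (v (d t)) t) {t₀ : ℝ}
    (h : c t₀ = d t₀) : c = d := by
  have hcc : Continuous c := continuous_iff_continuousAt.mpr fun t => (hc t).continuousAt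
  have hdc : Continuous d := continuous_iff_continuousAt.mpr fun t => (hd t).continuousAt
  have hcl : IsClopen {t | c t = d t} := by
    refine ⟨isClosed_eq hcc hdc, isOpen_iff_mem_nhds.mpr fun t ht => ?_⟩
    obtain ⟨K, W, hW, hK⟩ := (hv t).exists_lipschitzOnWith
    have hW' : W ∈ 𝓝 (d t) := ht ▸ hW
    refine ODE_solution_unique_of_eventually (v := fun _ => v) (s := fun _ => W) (K := K)
      (Eventually.of_forall fun _ => hK) ?_ ?_ ht
    · filter_upwards [hcc.continuousAt.preimage_mem_nhds hW] with s hs using ⟨hc s, hs⟩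
    · filter_upwards [hdc.continuousAt.preimage_mem_nhds hW'] with s hs using ⟨hd s, hs⟩
  funext t
  have : t ∈ {t | c t = d t} := by
    rw [hcl.eq_univ ⟨t₀, h⟩]
    trivial
  exact this

/-- an integral curve through a zero of the field is constant -/
theorem curve_const {v : E → E} {c : ℝ → E} {t₀ : ℝ} (hv : ContDiffAt ℝ 1 v (c t₀))
    (hc : ∀ t, HasDerivAt c (v (c t)) t) (h : v (c t₀) = 0) (t : ℝ) : c t = c t₀ :=
  (congrFun (curve_unique (c := fun _ => c t₀) (d := c) (fun _ => hv)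
    (fun s => by rw [h]; exact hasDerivAt_const s _) hc (t₀ := t₀) rfl) t).symm

/-- the time derivative of a flow as a directional derivative -/
theorem fderiv_time {F : Type*} [NormedAddCommGroup F] [NormedSpace ℝ F] {P : ℝ × E → F}
    {t : ℝ} {x : E} {y : F} (hP : DifferentiableAt ℝ P (t, x))
    (h : HasDerivAt (fun s => P (s, x)) y t) : fderiv ℝ P (t, x) (1, 0) = y :=
  (hP.hasFDerivAt.comp_hasDerivAt t ((hasDerivAt_id t).prodMk (hasDerivAt_const t x))).unique h

/-- the variational equation -/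
theorem variation {F : Type*} [NormedAddCommGroup F] [NormedSpace ℝ F] {P : ℝ × E → F}
    {v : F → F} {t : ℝ} {x : E} (hP : ContDiffAt ℝ 2 P (t, x))
    (hv : DifferentiableAt ℝ v (P (t, x)))
    (h : ∀ᶠ w in 𝓝 (t, x), HasDerivAt (fun s => P (s, w.2)) (v (P w)) w.1) (ξ : ℝ × E) :
    HasDerivAt (fun s => fderiv ℝ P (s, x) ξ) (fderiv ℝ v (P (t, x)) (fderiv ℝ P (t, x) ξ)) t := by
  have hD : HasFDerivAt (fderiv ℝ P) (fderiv ℝ (fderiv ℝ P) (t, x)) (t, x) :=
    ((hP.fderiv_right (m := 1) (by norm_num)).differentiableAt one_ne_zero).hasFDerivAt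
  have h1 : HasDerivAt (fun s => fderiv ℝ P (s, x)) (fderiv ℝ (fderiv ℝ P) (t, x) (1, 0)) t :=
    hD.comp_hasDerivAt t ((hasDerivAt_id t).prodMk (hasDerivAt_const t x))
  have h2 : HasDerivAt (fun s => fderiv ℝ P (s, x) ξ)
      (fderiv ℝ (fderiv ℝ P) (t, x) (1, 0) ξ) t := by
    simpa using h1.clm_apply (hasDerivAt_const t ξ)
  rw [(hP.isSymmSndFDerivAt (by simp)).eq] at h2
  have h3 : HasFDerivAt (fun w => fderiv ℝ P w (1, 0))
      ((fderiv ℝ (fderiv ℝ P) (t, x)).flip (1, 0)) (t, x) := by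
    simpa using hD.clm_apply (hasFDerivAt_const ((1, 0) : ℝ × E) (t, x))
  have h4 : HasFDerivAt (fun w => v (P w)) (fderiv ℝ v (P (t, x)) ∘L fderiv ℝ P (t, x)) (t, x) :=
    hv.hasFDerivAt.comp (t, x) (hP.differentiableAt two_ne_zero).hasFDerivAt
  have h5 : (fun w => fderiv ℝ P w (1, 0)) =ᶠ[𝓝 (t, x)] fun w => v (P w) := by
    filter_upwards [h, hP.eventually (by simp)] with w hw hw'
    exact fderiv_time (hw'.differentiableAt two_ne_zero) hw
  have h6 := congrArg (fun L => L ξ) (h3.unique (h4.congr_of_eventuallyEq h5))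
  simp only [ContinuousLinearMap.flip_apply, ContinuousLinearMap.comp_apply] at h6
  rwa [h6] at h2

/-- local invariance of a `C^2` retract under a time dependent tangent field -/
theorem eventually_mem_retract {S : Set E} {ρ : E → E} {v : ℝ × E → E} {c : ℝ → E} {t : ℝ}
    (hρ : ContDiffAt ℝ 2 ρ (c t)) (hv : ContDiffAt ℝ 1 v (t, c t))
    (hS : ∀ᶠ y in 𝓝 (c t), ρ y ∈ S) (hfix : ρ (c t) = c t)
    (htan : ∀ᶠ w in 𝓝 (t, c t), w.2 ∈ S → fderiv ℝ ρ w.2 (v w) = v w)
    (hc : ∀ᶠ s in 𝓝 t, HasDerivAt c (v (s, c s)) s) : ∀ᶠ s in 𝓝 t, c s ∈ S := by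
  let g : ℝ × E → E := fun w => v w - fderiv ℝ ρ w.2 (v w)
  have hg : ContDiffAt ℝ 1 g (t, c t) :=
    hv.sub ((ContDiffAt.comp (t, c t) (g := fderiv ℝ ρ) (hρ.fderiv_right (m := 1) (by norm_num))
      contDiffAt_snd).clm_apply hv)
  obtain ⟨K, W, hW, hK⟩ := hg.exists_lipschitzOnWith
  have hcc : ContinuousAt c t := hc.self_of_nhds.continuousAt
  have h1 : ContinuousAt (fun s => (s, c s)) t := continuousAt_id.prodMk hcc
  have h2 : Tendsto (fun s => (s, ρ (c s))) (𝓝 t) (𝓝 (t, c t)) := by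
    have : ContinuousAt (fun s => (s, ρ (c s))) t :=
      continuousAt_id.prodMk (ContinuousAt.comp (g := ρ) hρ.continuousAt hcc)
    rwa [ContinuousAt, hfix] at this
  have key : (fun s => c s - ρ (c s)) =ᶠ[𝓝 t] fun _ => 0 := by
    refine ODE_solution_unique_of_eventually (v := fun s e => g (s, ρ (c s) + e))
      (s := fun s => {e | (s, ρ (c s) + e) ∈ W}) (K := K)
      (Eventually.of_forall fun s => ?_) ?_ ?_ (by rw [hfix, sub_self])
    · refine LipschitzOnWith.of_dist_le_mul fun e he e' he' => (hK.dist_le_mul _ he _ he').trans ?_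
      simp [Prod.dist_eq]
    · filter_upwards [hc, h1.preimage_mem_nhds hW, hcc.eventually (hρ.eventually (by simp))]
        with s hs hsW hsρ
      rw [add_sub_cancel]
      exact ⟨hs.sub ((hsρ.differentiableAt two_ne_zero).hasFDerivAt.comp_hasDerivAt s hs), hsW⟩
    · filter_upwards [h2.eventually hW, h2.eventually htan, hcc.eventually hS] with s hsW hs hsS
      rw [add_zero]
      refine ⟨?_, hsW⟩
      have : g (s, ρ (c s)) = 0 := sub_eq_zero.mpr (hs hsS).symm
      rw [this]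
      exact hasDerivAt_const s _
  filter_upwards [key, hcc.eventually hS] with s hs hsS
  rwa [← sub_eq_zero.mp hs] at hsS

/-- a closed `C^2` retract is invariant under a tangent field -/
theorem mem_retract {S : Set E} (hcl : IsClosed S) {ρ v : E → E}
    (hρ : ∀ a ∈ S, ContDiffAt ℝ 2 ρ a) (hv : ∀ a ∈ S, ContDiffAt ℝ 1 v a)
    (hS : ∀ a ∈ S, ∀ᶠ y in 𝓝 a, ρ y ∈ S) (hfix : ∀ a ∈ S, ρ a = a)
    (htan : ∀ a ∈ S, fderiv ℝ ρ a (v a) = v a) {c : ℝ → E}
    (hc : ∀ t, HasDerivAt c (v (c t)) t) {t₀ : ℝ} (h0 : c t₀ ∈ S) (t : ℝ) : c t ∈ S := by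
  have hcc : Continuous c := continuous_iff_continuousAt.mpr fun t => (hc t).continuousAt
  have hco : IsClopen (c ⁻¹' S) := by
    refine ⟨hcl.preimage hcc, isOpen_iff_mem_nhds.mpr fun s hs => ?_⟩
    exact eventually_mem_retract (v := fun w => v w.2) (hρ _ hs)
      (ContDiffAt.comp (s, c s) (g := v) (hv _ hs) contDiffAt_snd) (hS _ hs) (hfix _ hs)
      (Eventually.of_forall fun w hw => htan _ hw) (Eventually.of_forall hc)
  have : t ∈ c ⁻¹' S := by
    rw [hco.eq_univ ⟨t₀, h0⟩]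
    trivial
  exact this

end Pool.Agent.Lib.Flow
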